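import Pool.Agent.H15.MaxC

/-!
# MP_10444e_gt: under CH the answer to Q1 is no
-/

set_option autoImplicit false

namespace Pool.Agent.Results.MP_10444e_gt.CHCounter

open Cardinal Pool.Agent.H15.Max

/-- Assume the continuum hypothesis. There are a set `X` of reals with the property
`U_fin(𝒪, Ω)` and a continuous map `f : X → ℕ^ℕ` such that the set `G(f[X])` of all functions
eventually dominated by the maximum of finitely many elements of `f[X]` does not have the property
`U_fin(𝒪, Ω)`; it does not even have Menger's property `S_fin(𝒪, 𝒪)`. -/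
theorem result (hCH : (2 : Cardinal.{0}) ^ ℵ₀ = Cardinal.aleph 1) :
    ∃ X : Set ℝ, UfinOmega X ∧ ∃ f : ℝ → (ℕ → ℕ), ContinuousOn f X ∧
      ¬ Menger (GG (f '' X)) ∧ ¬ UfinOmega (GG (f '' X)) :=
  final hCH

end Pool.Agent.Results.MP_10444e_gt.CHCounter
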