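import Pool.Agent.H15.MaxC
import Pool.Agent.H15.MaxPow

/-!
# MP_10444e_gt: both halves of the independence of Q1
-/

set_option autoImplicit false

namespace Pool.Agent.Results.MP_10444e_gt.Independence

open Cardinal Pool.Agent.H15.Max

/-- (1) Under the continuum hypothesis there are a set `X` of reals with `U_fin(𝒪, Ω)` and a
continuous `f : X → ℕ^ℕ` such that `G(f[X])` fails `U_fin(𝒪, Ω)`, and even Menger's property.
(2) In ZFC, if every finite power of a set `X` of reals has Menger's property, then `G(f[X])` has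
`U_fin(𝒪, Ω)` for every continuous `f : X → ℕ^ℕ`. -/
theorem result :
    ((2 : Cardinal.{0}) ^ ℵ₀ = Cardinal.aleph 1 →
      ∃ X : Set ℝ, UfinOmega X ∧ ∃ f : ℝ → (ℕ → ℕ), ContinuousOn f X ∧
        ¬ Menger (GG (f '' X)) ∧ ¬ UfinOmega (GG (f '' X))) ∧
    ∀ X : Set ℝ, (∀ k : ℕ, Menger {p : Fin k → ℝ | ∀ i, p i ∈ X}) →
      ∀ f : ℝ → (ℕ → ℕ), ContinuousOn f X → UfinOmega (GG (f '' X)) :=
  ⟨final, powers⟩

end Pool.Agent.Results.MP_10444e_gt.Independence
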